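import Pool.Agent.K6.H19.GI.Gau
import Pool.Agent.R895.Eis

/-!
# Lattices in complex vector spaces with multiplication by a euclidean ring
-/

set_option autoImplicit false

namespace Pool.Agent.K6.H19.TR

/-- The lattices in the complex vector space `V`: the subgroups generated by a real basis. -/
def IsLatt {V : Type*} [AddCommGroup V] [Module ℂ V] [Module ℝ V] (Λ : AddSubgroup V) : Prop :=
  ∃ (d : ℕ) (b : Module.Basis (Fin d) ℝ V), Λ = AddSubgroup.closure (Set.range b)

/-- `O` is a subring of the complex numbers with covering radius less than `1`. -/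
structure IsEuc (O : ℂ → Prop) : Prop where
  zero : O 0
  one : O 1
  add : ∀ x y, O x → O y → O (x + y)
  neg : ∀ x, O x → O (-x)
  mul : ∀ x y, O x → O y → O (x * y)
  near : ∀ z, ∃ a, O a ∧ ‖z - a‖ < 1

theorem isEuc_gau : IsEuc Pool.Agent.K6.H19.GI.IsGau where
  zero := .zero
  one := .one
  add _ _ h1 h2 := h1.add h2
  neg _ h := h.neg
  mul _ _ h1 h2 := h1.mul h2
  near z := by
    obtain ⟨a, h1, h2⟩ := Pool.Agent.K6.H19.GI.exists_near z
    refine ⟨a, h1, ?_⟩
    rw [Complex.normSq_eq_norm_sq] at h2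
    nlinarith [norm_nonneg (z - a)]

theorem isEuc_eis : IsEuc Pool.Agent.R895.IsEis where
  zero := .zero
  one := .one
  add _ _ h1 h2 := h1.add h2
  neg _ h := h.neg
  mul _ _ h1 h2 := h1.mul h2
  near z := by
    obtain ⟨a, h1, h2⟩ := Pool.Agent.R895.exists_near z
    refine ⟨a, h1, ?_⟩
    rw [Complex.normSq_eq_norm_sq] at h2
    nlinarith [norm_nonneg (z - a)]

universe u

section

variable {V : Type u} [NormedAddCommGroup V] [NormedSpace ℂ V]

/-- `Λ` is a discrete `O`-submodule which spans the complex vector space. -/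
structure IsOLatt (O : ℂ → Prop) (Λ : AddSubgroup V) : Prop where
  smul : ∀ a, O a → ∀ v ∈ Λ, a • v ∈ Λ
  fin : ∀ C : ℝ, {v | v ∈ Λ ∧ ‖v‖ ≤ C}.Finite
  span : Submodule.span ℂ (Λ : Set V) = ⊤

omit [NormedSpace ℂ V] in
/-- A nonzero vector of smallest norm. -/
theorem exists_short {Λ : AddSubgroup V} (hfin : ∀ C : ℝ, {v | v ∈ Λ ∧ ‖v‖ ≤ C}.Finite)
    (hne : ∃ v ∈ Λ, v ≠ 0) : ∃ w ∈ Λ, w ≠ 0 ∧ ∀ v ∈ Λ, v ≠ 0 → ‖w‖ ≤ ‖v‖ := by
  obtain ⟨v₀, h1, h2⟩ := hne
  have hf : {v | v ∈ Λ ∧ ‖v‖ ≤ ‖v₀‖ ∧ v ≠ 0}.Finite :=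
    (hfin ‖v₀‖).subset fun v hv => ⟨hv.1, hv.2.1⟩
  obtain ⟨w, ⟨hw1, hw2, hw3⟩, hmin⟩ := Set.exists_min_image _ (fun v => ‖v‖) hf
    ⟨v₀, h1, le_rfl, h2⟩
  refine ⟨w, hw1, hw3, fun v hv hv0 => ?_⟩
  rcases le_or_gt ‖v‖ ‖v₀‖ with h | h
  · exact hmin v ⟨hv, h, hv0⟩
  · exact hw2.trans h.le

theorem eq_of_short {O : ℂ → Prop} (hO : IsEuc O) {Λ : AddSubgroup V}
    (hsm : ∀ a, O a → ∀ v ∈ Λ, a • v ∈ Λ) {w : V} (hw : w ∈ Λ) (hw0 : w ≠ 0)
    (hmin : ∀ v ∈ Λ, v ≠ 0 → ‖w‖ ≤ ‖v‖) {z : ℂ} (hz : z • w ∈ Λ) : O z := by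
  obtain ⟨a, ha, hza⟩ := hO.near z
  have h1 : (z - a) • w ∈ Λ := by
    rw [sub_smul]
    exact Λ.sub_mem hz (hsm a ha w hw)
  have h2 : (z - a) • w = 0 := by
    by_contra h0
    have h3 := hmin _ h1 h0
    rw [norm_smul] at h3
    have h4 := norm_pos_iff.2 hw0
    nlinarith
  rcases smul_eq_zero.1 h2 with h3 | h3
  · rwa [sub_eq_zero.1 h3]
  · exact absurd h3 hw0

end

/-- **The structure of lattices.** -/
theorem exists_lequiv {O : ℂ → Prop} (hO : IsEuc O) : ∀ (n : ℕ) (V : Type u)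
    [NormedAddCommGroup V] [NormedSpace ℂ V] [FiniteDimensional ℂ V] (Λ : AddSubgroup V),
    Module.finrank ℂ V = n → IsOLatt O Λ →
    ∃ e : (Fin n → ℂ) ≃ₗ[ℂ] V, ∀ x, e x ∈ Λ ↔ ∀ i, O (x i) := by
  intro n
  induction n with
  | zero =>
    intro V _ _ _ Λ hn _
    have h1 : Subsingleton V := Module.finrank_zero_iff.1 hn
    refine ⟨{ toFun := fun _ => 0
              map_add' := fun _ _ => (add_zero _).symm
              map_smul' := fun _ _ => (smul_zero _).symm
              invFun := fun _ => 0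
              left_inv := fun _ => Subsingleton.elim _ _
              right_inv := fun _ => Subsingleton.elim _ _ }, fun x => ?_⟩
    exact ⟨fun _ i => i.elim0, fun _ => Λ.zero_mem⟩
  | succ n ih =>
    intro V _ _ _ Λ hn hΛ
    obtain ⟨w, hw, hw0, hmin⟩ := exists_short hΛ.fin (by
      by_contra hcon
      push Not at hcon
      have h1 : (Λ : Set V) ⊆ {0} := fun v hv => hcon v hv
      have h2 : Submodule.span ℂ (Λ : Set V) ≤ ⊥ := by
        rw [Submodule.span_le]
        intro v hv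
        exact h1 hv
      rw [hΛ.span] at h2
      have h3 : Subsingleton V := by
        refine ⟨fun a b => ?_⟩
        have e1 : a = 0 := h2 (Submodule.mem_top : a ∈ ⊤)
        have e2 : b = 0 := h2 (Submodule.mem_top : b ∈ ⊤)
        rw [e1, e2]
      have h4 : Module.finrank ℂ V = 0 := Module.finrank_zero_of_subsingleton
      omega)
    -- a functional with value `1` at `w`
    obtain ⟨l, hl⟩ : ∃ l : V →ₗ[ℂ] ℂ, l w = 1 := by
      obtain ⟨f, -, hf⟩ := exists_dual_vector ℂ w (norm_ne_zero_iff.2 hw0)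
      have hf0 : f w ≠ 0 := by
        rw [hf]
        simpa using hw0
      refine ⟨(f w)⁻¹ • (f : V →ₗ[ℂ] ℂ), ?_⟩
      rw [LinearMap.smul_apply, smul_eq_mul]
      exact inv_mul_cancel₀ hf0
    set K : Submodule ℂ V := LinearMap.ker l with hK
    -- the projection
    have hpr : ∀ v, v - l v • w ∈ K := by
      intro v
      rw [hK, LinearMap.mem_ker, map_sub, map_smul, hl]
      simp
    let p : V →ₗ[ℂ] K := LinearMap.codRestrict K (LinearMap.id - l.smulRight w) (by
      intro v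
      exact hpr v)
    have hp : ∀ v, (p v : V) = v - l v • w := fun v => rfl
    have hpK : ∀ x : K, p x = x := by
      intro x
      apply Subtype.ext
      have : l x = 0 := x.2
      rw [hp, this, zero_smul, sub_zero]
    have hpw : p w = 0 := by
      apply Subtype.ext
      rw [hp, hl, one_smul, sub_self]
      rfl
    have hKn : Module.finrank ℂ K = n := by
      have h1 := LinearMap.finrank_range_add_finrank_ker l
      have h2 : LinearMap.range l = ⊤ := by
        rw [LinearMap.range_eq_top]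
        intro z
        exact ⟨z • w, by rw [map_smul, hl, smul_eq_mul, mul_one]⟩
      rw [h2, finrank_top, Module.finrank_self, hn, ← hK] at h1
      omega
    set M : AddSubgroup K := Λ.map p.toAddMonoidHom with hM
    have hMm : ∀ x : K, x ∈ M ↔ ∃ v ∈ Λ, p v = x := fun x => Iff.rfl
    have hM' : IsOLatt O M := by
      refine ⟨?_, ?_, ?_⟩
      · rintro a ha _ ⟨v, hv, rfl⟩
        exact ⟨a • v, hΛ.smul a ha v hv, map_smul p a v⟩
      · intro C
        have h1 := (hΛ.fin (C + ‖w‖)).image p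
        refine h1.subset ?_
        rintro x ⟨⟨v, hv, hvx⟩, hxC⟩
        have hvx' : p v = x := hvx
        obtain ⟨a, ha, hla⟩ := hO.near (l v)
        refine ⟨v - a • w, ⟨Λ.sub_mem hv (hΛ.smul a ha w hw), ?_⟩, ?_⟩
        · have e1 : v - a • w = (x : V) + (l v - a) • w := by
            rw [← hvx', hp, sub_smul]
            abel
          rw [e1]
          refine (norm_add_le _ _).trans ?_
          rw [norm_smul]
          have h2 : ‖(x : V)‖ ≤ C := hxC
          have h3 := norm_nonneg w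
          nlinarith
        · rw [map_sub, map_smul, hpw, smul_zero, sub_zero, hvx']
      · rw [eq_top_iff]
        rintro x -
        have h1 : (x : V) ∈ Submodule.span ℂ (Λ : Set V) := by
          rw [hΛ.span]; exact Submodule.mem_top
        have h2 : p x ∈ (Submodule.span ℂ (Λ : Set V)).map p := ⟨x, h1, rfl⟩
        rw [hpK, Submodule.map_span] at h2
        exact h2
    obtain ⟨e, he⟩ := ih K M hKn hM'
    -- lift the basis
    have hlift : ∀ i : Fin n, ∃ v ∈ Λ, p v = e (Pi.single i 1) := by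
      intro i
      refine (hMm _).1 ((he _).2 fun k => ?_)
      rw [Pi.single_apply]
      split_ifs
      · exact hO.one
      · exact hO.zero
    choose b hb1 hb2 using hlift
    let f : (Fin (n + 1) → ℂ) →ₗ[ℂ] V :=
      (LinearMap.proj 0).smulRight w + ∑ i : Fin n, (LinearMap.proj i.succ).smulRight (b i)
    have hf : ∀ x, f x = x 0 • w + ∑ i : Fin n, x i.succ • b i := by
      intro x
      simp [f, LinearMap.add_apply, LinearMap.sum_apply]
    have hpf : ∀ x, p (f x) = e (fun i => x i.succ) := by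
      intro x
      rw [hf, map_add, map_smul, hpw, smul_zero, zero_add, map_sum]
      simp only [map_smul, hb2]
      have e1 : (fun i : Fin n => x i.succ) = ∑ i : Fin n, x i.succ • (Pi.single i 1 : Fin n → ℂ) := by
        funext k
        simp [Finset.sum_apply, Pi.single_apply]
      rw [e1, map_sum]
      exact Finset.sum_congr rfl fun i _ => (map_smul _ _ _).symm
    have hinj : Function.Injective f := by
      rw [← LinearMap.ker_eq_bot, LinearMap.ker_eq_bot']
      intro x hx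
      have h1 := hpf x
      rw [hx, map_zero] at h1
      have h2 : (fun i : Fin n => x i.succ) = 0 := e.map_eq_zero_iff.1 h1.symm
      rw [hf, Finset.sum_eq_zero fun i _ => by
        have : x i.succ = 0 := congrFun h2 i
        rw [this, zero_smul], add_zero] at hx
      have h3 : x 0 = 0 := (smul_eq_zero.1 hx).resolve_right hw0
      funext i
      refine Fin.cases h3 (fun i => ?_) i
      exact congrFun h2 i
    have hdim : Module.finrank ℂ (Fin (n + 1) → ℂ) = Module.finrank ℂ V := by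
      rw [hn, Module.finrank_fin_fun]
    refine ⟨LinearMap.linearEquivOfInjective f hinj hdim, fun x => ?_⟩
    change f x ∈ Λ ↔ _
    have hsum : ∀ y : Fin n → ℂ, (∀ i, O (y i)) → ∑ i : Fin n, y i • b i ∈ Λ := fun y hy =>
      Λ.sum_mem fun i _ => hΛ.smul _ (hy i) _ (hb1 i)
    constructor
    · intro hx
      have h1 : p (f x) ∈ M := ⟨f x, hx, rfl⟩
      rw [hpf, he] at h1
      have h2 : x 0 • w ∈ Λ := by
        have h3 := Λ.sub_mem hx (hsum _ h1)
        rwa [hf, add_sub_cancel_right] at h3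
      intro i
      refine Fin.cases ?_ (fun i => ?_) i
      · exact eq_of_short hO hΛ.smul hw hw0 hmin h2
      · exact h1 i
    · intro hx
      rw [hf]
      exact Λ.add_mem (hΛ.smul _ (hx 0) _ hw) (hsum _ fun i => hx i.succ)

section

variable {V : Type u} [NormedAddCommGroup V] [NormedSpace ℂ V] [FiniteDimensional ℂ V]

theorem IsLatt.fin {Λ : AddSubgroup V} (h : IsLatt Λ) (C : ℝ) : {v | v ∈ Λ ∧ ‖v‖ ≤ C}.Finite := by
  obtain ⟨d, b, rfl⟩ := h
  have hfd : FiniteDimensional ℝ V := b.finiteDimensional_of_finite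
  have hps : ProperSpace V := FiniteDimensional.proper ℝ V
  have h1 := ZSpan.setFinite_inter b (s := Metric.closedBall 0 C) Metric.isBounded_closedBall
  refine h1.subset ?_
  rintro v ⟨hv1, hv2⟩
  refine ⟨mem_closedBall_zero_iff.2 hv2, ?_⟩
  rw [← Submodule.span_int_eq_addSubgroupClosure] at hv1
  exact hv1

theorem IsLatt.span_real {Λ : AddSubgroup V} (h : IsLatt Λ) :
    Submodule.span ℝ (Λ : Set V) = ⊤ := by
  obtain ⟨d, b, rfl⟩ := h
  rw [eq_top_iff, ← b.span_eq]
  exact Submodule.span_mono AddSubgroup.subset_closure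

theorem IsLatt.span {Λ : AddSubgroup V} (h : IsLatt Λ) : Submodule.span ℂ (Λ : Set V) = ⊤ := by
  have h1 : Submodule.span ℝ (Λ : Set V) ≤ (Submodule.span ℂ (Λ : Set V)).restrictScalars ℝ :=
    Submodule.span_le.2 Submodule.subset_span
  rw [h.span_real] at h1
  rw [eq_top_iff]
  intro v _
  exact h1 Submodule.mem_top

/-- A real number which maps a lattice to itself is an integer. -/
theorem int_of_real {Λ : AddSubgroup V} (hfin : ∀ C : ℝ, {v | v ∈ Λ ∧ ‖v‖ ≤ C}.Finite)
    (hne : ∃ v ∈ Λ, v ≠ 0) {r : ℝ} (hr : ∀ v ∈ Λ, (r : ℂ) • v ∈ Λ) : ∃ n : ℤ, r = n := by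
  obtain ⟨w, hw, hw0, hmin⟩ := exists_short hfin hne
  refine ⟨⌊r⌋, ?_⟩
  have h1 : ((Int.fract r : ℝ) : ℂ) • w ∈ Λ := by
    have e1 : ((Int.fract r : ℝ) : ℂ) • w = (r : ℂ) • w - ⌊r⌋ • w := by
      rw [Int.fract, Complex.ofReal_sub, sub_smul, Complex.ofReal_intCast, Int.cast_smul_eq_zsmul]
    rw [e1]
    exact Λ.sub_mem (hr w hw) (Λ.zsmul_mem hw _)
  have h2 : ((Int.fract r : ℝ) : ℂ) • w = 0 := by
    by_contra h0
    have h3 := hmin _ h1 h0
    rw [norm_smul, Complex.norm_real, Real.norm_of_nonneg (Int.fract_nonneg r)] at h3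
    have h4 := norm_pos_iff.2 hw0
    have h5 := Int.fract_lt_one r
    nlinarith
  have h3 : Int.fract r = 0 := by
    have h4 := (smul_eq_zero.1 h2).resolve_right hw0
    exact_mod_cast h4
  have h4 := Int.floor_add_fract r
  rw [h3, add_zero] at h4
  exact h4.symm

/-- A root of unity other than `1` and `-1` which maps a lattice to itself is a root of unity of
order three, four or six. -/
theorem quad_of_root {Λ : AddSubgroup V} (hfin : ∀ C : ℝ, {v | v ∈ Λ ∧ ‖v‖ ≤ C}.Finite)
    (hne : ∃ v ∈ Λ, v ≠ 0) {ζ : ℂ} {N : ℕ} (hN : N ≠ 0) (hζ : ζ ^ N = 1) (hζ2 : ζ ^ 2 ≠ 1)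
    (h : ∀ v ∈ Λ, ζ • v ∈ Λ) (h' : ∀ v ∈ Λ, ζ⁻¹ • v ∈ Λ) :
    ζ * ζ = -1 ∨ ζ * ζ = ζ - 1 ∨ ζ * ζ = -ζ - 1 := by
  have hn : ‖ζ‖ = 1 := by
    have h1 : ‖ζ‖ ^ N = 1 := by rw [← norm_pow, hζ, norm_one]
    exact (pow_eq_one_iff_of_nonneg (norm_nonneg _) hN).1 h1
  have hζ0 : ζ ≠ 0 := by
    intro h0
    rw [h0, norm_zero] at hn
    exact zero_ne_one hn
  have hc : ζ * (starRingEnd ℂ) ζ = 1 := by
    rw [Complex.mul_conj, Complex.normSq_eq_norm_sq, hn]
    norm_num
  have hinv : ζ⁻¹ = (starRingEnd ℂ) ζ := (eq_inv_of_mul_eq_one_right hc).symm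
  have hre : ((2 * ζ.re : ℝ) : ℂ) = ζ + ζ⁻¹ := by
    rw [hinv, Complex.add_conj]
  obtain ⟨t, ht⟩ := int_of_real hfin hne (r := 2 * ζ.re) fun v hv => by
    rw [hre, add_smul]
    exact Λ.add_mem (h v hv) (h' v hv)
  have h1 : ζ * ζ = t * ζ - 1 := by
    have h2 : (t : ℂ) = ζ + ζ⁻¹ := by
      rw [← hre, ht]
      push_cast
      rfl
    rw [h2, add_mul, inv_mul_cancel₀ hζ0]
    ring
  have hns : ζ.re * ζ.re + ζ.im * ζ.im = 1 := by
    rw [← Complex.normSq_apply, Complex.normSq_eq_norm_sq, hn]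
    norm_num
  have hb : t ^ 2 ≤ 4 := by
    have h2 : (t : ℝ) ^ 2 ≤ 4 := by
      rw [← ht]
      nlinarith [mul_self_nonneg ζ.im]
    exact_mod_cast h2
  have hb2 : t ^ 2 ≠ 4 := by
    intro h2
    apply hζ2
    have h3 : (t : ℝ) ^ 2 = 4 := by exact_mod_cast h2
    rw [← ht] at h3
    have h4 : ζ.im = 0 := by
      have : ζ.im * ζ.im = 0 := by nlinarith
      exact mul_self_eq_zero.1 this
    have h5 : ζ.re * ζ.re = 1 := by nlinarith
    apply Complex.ext
    · rw [pow_two, Complex.mul_re, h4, h5, Complex.one_re]; ring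
    · rw [pow_two, Complex.mul_im, h4, Complex.one_im]; ring
  have h3 : -2 ≤ t := by nlinarith
  have h4 : t ≤ 2 := by nlinarith
  interval_cases t
  · norm_num at hb2
  · right; right
    rw [h1]; push_cast; ring
  · left
    rw [h1]; push_cast; ring
  · right; left
    rw [h1]; push_cast; ring
  · norm_num at hb2

end

end Pool.Agent.K6.H19.TR
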