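import Pool.Agent.K6.H19.TR.Dm
import Pool.Agent.K6.H19.TR.Lt
import Pool.Agent.K6.H19.GK.Main
import Pool.Agent.T6.H34.EK.Main

/-!
# The nef cone conjecture for threefolds which are quotients of blow-ups of tori
-/

set_option autoImplicit false

namespace Pool.Agent.K6.H19.TR

open Pool.Agent.W594.SYZ2 (IsHermitian)
open Pool.Agent.T6.H34.EK (Pres semi NS form coef nefCone IsAutGroup HasDomain)
open Pool.Agent.Y167.CC (LinGrp)

/-- The conclusion of the theorems. -/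
def Concl {V : Type*} [NormedAddCommGroup V] [NormedSpace ℂ V] (Λ : AddSubgroup V)
    (Γ : Pool.Agent.Y167.AffGrp V) : Prop :=
  (∀ x : NS Γ, x ∈ nefCone Γ ↔ 0 ≤ coef x ∧ ∀ v ∈ Λ, ∀ z : ℂ, z • v ∈ Λ → v ≠ 0 → z.im ≠ 0 →
    coef x ≤ |z.im| * (form x v v).re) ∧ ∀ 𝒢 : LinGrp (NS Γ), IsAutGroup 𝒢 → HasDomain 𝒢

section

variable {V W : Type*} [NormedAddCommGroup V] [NormedSpace ℂ V]
  [NormedAddCommGroup W] [NormedSpace ℂ W]

/-- The conclusion is invariant under linear isomorphisms. -/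
theorem Concl.map (φ : V ≃L[ℂ] W) {Λ : AddSubgroup V} {Λ' : AddSubgroup W}
    (hΛ : ∀ v, v ∈ Λ ↔ φ v ∈ Λ') {G' : Subgroup (W ≃ₗ[ℂ] W)} (hG' : Pres Λ' G')
    (hG : Pres Λ (G'.comap (cjL φ))) (h : Concl Λ (semi Λ (G'.comap (cjL φ)) hG)) :
    Concl Λ' (semi Λ' G' hG') := by
  have hc := cj_semi φ hΛ hG' hG
  have hP : ∀ y : NS (semi Λ' G' hG'), Ps hc (Ps hc.symm y) = y := fun y =>
    (Ps hc).apply_symm_apply y
  refine ⟨fun x => ?_, transport hc h.2⟩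
  have h1 : x ∈ nefCone (semi Λ' G' hG') ↔ Ps hc.symm x ∈ nefCone (semi Λ _ hG) := by
    constructor
    · intro hx
      exact Ps_nefCone hc.symm hx
    · intro hx
      have := Ps_nefCone hc hx
      rwa [hP] at this
  rw [h1, h.1]
  have h2 : coef (Ps hc.symm x) = coef x := rfl
  have h3 : ∀ v, form (Ps hc.symm x) v v = form x (φ v) (φ v) := fun v => rfl
  rw [h2]
  refine and_congr_right fun _ => ?_
  constructor
  · intro h4 v hv z hz hv0 hzi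
    have h5 := h4 (φ.symm v) ((hΛ _).2 (by rwa [φ.apply_symm_apply])) z ((hΛ _).2 (by
      rwa [map_smul, φ.apply_symm_apply])) (fun h0 => hv0 (by
      rw [← φ.apply_symm_apply v, h0, map_zero])) hzi
    rwa [h3, φ.apply_symm_apply] at h5
  · intro h4 v hv z hz hv0 hzi
    rw [h3]
    refine h4 (φ v) ((hΛ v).1 hv) z ?_ (fun h0 => hv0 (φ.map_eq_zero_iff.1 h0)) hzi
    rw [← map_smul]
    exact (hΛ _).1 hz

end

section

variable {V : Type*} [NormedAddCommGroup V] [NormedSpace ℂ V]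

/-- Two descriptions of the nef cone. -/
theorem cone_cond {O : ℂ → Prop} (hO : IsEuc O) (hconj : ∀ z, O z → O ((starRingEnd ℂ) z))
    {κ : ℝ} (hκ : 0 < κ) {ω : ℂ} (hω : O ω) (hωi : |ω.im| = 1 / κ)
    (him : ∀ z, O z → z.im ≠ 0 → 1 / κ ≤ |z.im|) {Λ : AddSubgroup V}
    (hsm : ∀ a, O a → ∀ v ∈ Λ, a • v ∈ Λ)
    (hfin : ∀ C : ℝ, {v | v ∈ Λ ∧ ‖v‖ ≤ C}.Finite) {H : V → V → ℂ} (hH : IsHermitian H)
    {b : ℝ} (hb : 0 ≤ b) :
    (∀ v ∈ Λ, v ≠ 0 → κ * b ≤ (H v v).re) ↔ ∀ v ∈ Λ, ∀ z : ℂ, z • v ∈ Λ → v ≠ 0 → z.im ≠ 0 →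
      b ≤ |z.im| * (H v v).re := by
  have hq : ∀ (c : ℂ) (v : V), (H (c • v) (c • v)).re = Complex.normSq c * (H v v).re := by
    intro c v
    have e1 : H (c • v) (c • v) = ((Complex.normSq c : ℝ) : ℂ) * H v v := by
      rw [hH.smul_left, hH.symm, hH.smul_left, map_mul, ← hH.symm, ← Complex.mul_conj]
      ring
    rw [e1, Complex.re_ofReal_mul]
  constructor
  · intro h v hv z hz hv0 hzi
    -- the primitive vector on the line
    let M : AddSubgroup V :=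
      { carrier := {u | u ∈ Λ ∧ ∃ c : ℂ, u = c • v}
        zero_mem' := ⟨Λ.zero_mem, 0, (zero_smul _ _).symm⟩
        add_mem' := by
          rintro _ _ ⟨h1, c, rfl⟩ ⟨h2, d, rfl⟩
          exact ⟨Λ.add_mem h1 h2, c + d, (add_smul _ _ _).symm⟩
        neg_mem' := by
          rintro _ ⟨h1, c, rfl⟩
          exact ⟨Λ.neg_mem h1, -c, (neg_smul _ _).symm⟩ }
    have hMv : v ∈ M := ⟨hv, 1, (one_smul _ _).symm⟩
    have hMz : z • v ∈ M := ⟨hz, z, rfl⟩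
    obtain ⟨w, hw, hw0, hmin⟩ := exists_short (Λ := M)
      (fun C => (hfin C).subset fun u hu => ⟨hu.1.1, hu.2⟩) ⟨v, hMv, hv0⟩
    obtain ⟨hwΛ, c, hc⟩ := hw
    have hsM : ∀ a, O a → ∀ u ∈ M, a • u ∈ M := by
      rintro a ha u ⟨h1, d, rfl⟩
      exact ⟨hsm a ha _ h1, a * d, smul_smul _ _ _⟩
    have hc0 : c ≠ 0 := by
      rintro rfl
      rw [zero_smul] at hc
      exact hw0 hc
    have hvw : v = c⁻¹ • w := by rw [hc, smul_smul, inv_mul_cancel₀ hc0, one_smul]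
    have ha : O c⁻¹ := eq_of_short hO hsM ⟨hwΛ, c, hc⟩ hw0 hmin (by rw [← hvw]; exact hMv)
    have hb' : O (z * c⁻¹) := eq_of_short hO hsM ⟨hwΛ, c, hc⟩ hw0 hmin (by
      rw [← smul_smul, ← hvw]; exact hMz)
    set a := c⁻¹ with had
    have ha0 : a ≠ 0 := inv_ne_zero hc0
    have e1 : z * a * (starRingEnd ℂ) a = ((Complex.normSq a : ℝ) : ℂ) * z := by
      rw [← Complex.mul_conj]; ring
    have e2 : (z * a * (starRingEnd ℂ) a).im = Complex.normSq a * z.im := by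
      rw [e1, Complex.im_ofReal_mul]
    have hna := Complex.normSq_pos.2 ha0
    have h1 := him _ (hO.mul _ _ hb' (hconj _ ha)) (by
      rw [e2]; exact mul_ne_zero hna.ne' hzi)
    rw [e2, abs_mul, abs_of_pos hna] at h1
    have h2 := h w hwΛ hw0
    rw [hvw, hq]
    have h3 : 0 ≤ (H w w).re := le_trans (by positivity) h2
    have h4 : b ≤ 1 / κ * (H w w).re := by
      rw [one_div, ← div_eq_inv_mul, le_div_iff₀ hκ, mul_comm]
      exact h2
    calc b ≤ 1 / κ * (H w w).re := h4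
      _ ≤ Complex.normSq a * |z.im| * (H w w).re := mul_le_mul_of_nonneg_right h1 h3
      _ = |z.im| * (Complex.normSq a * (H w w).re) := by ring
  · intro h v hv hv0
    have hωi0 : ω.im ≠ 0 := by
      intro h0
      rw [h0, abs_zero] at hωi
      have : 0 < 1 / κ := by positivity
      linarith
    have h1 := h v hv ω (hsm ω hω v hv) hv0 hωi0
    rw [hωi, one_div, ← div_eq_inv_mul, le_div_iff₀ hκ, mul_comm] at h1
    exact h1

end

section std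

open Pool.Agent.K6.H19.GK (gauLat)
open Pool.Agent.T6.H34.EK (eisLat)

/-- The standard Gaussian case. -/
theorem std_gau (G : Subgroup ((Fin 3 → ℂ) ≃ₗ[ℂ] (Fin 3 → ℂ))) [Finite G]
    (hG : Pres (gauLat 3) G) : Concl (gauLat 3) (semi (gauLat 3) G hG) := by
  have hne : Nonempty (Fin 3) := ⟨0⟩
  have hft : Fintype G := Fintype.ofFinite G
  refine ⟨fun x => ?_, fun 𝒢 h𝒢 => Pool.Agent.K6.H19.GK.core rfl 𝒢 h𝒢.int h𝒢.nef_eff
    fun g u hg => h𝒢.lin u g hg.norm hg.pb⟩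
  have hre : ∀ v : Fin 3 → ℂ,
      (Pool.Agent.K6.H19.GI.frm (Pool.Agent.K6.H19.GK.up x) v v).re = (form x v v).re := fun v => by
    refine (Pool.Agent.K6.H19.GI.re_kap_div _).trans ?_
    rw [Pool.Agent.K6.H19.GI.kap_eq, div_one]
    rfl
  have hherm : IsHermitian (form x) := Pool.Agent.K6.H19.GI.form_herm (Pool.Agent.K6.H19.GK.up x)
  have key : x ∈ nefCone (semi (gauLat 3) G hG) ↔
      0 ≤ coef x ∧ ∀ v ∈ gauLat 3, v ≠ 0 → (1 : ℝ) * coef x ≤ (form x v v).re := by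
    rw [Pool.Agent.K6.H19.GK.nefCone_eq rfl]
    constructor
    · rintro ⟨-, h2, h3⟩
      refine ⟨h2, fun v hv hv0 => ?_⟩
      have h4 := h3 v hv hv0
      rwa [hre, Pool.Agent.K6.H19.GK.coef_up, ← one_mul (coef x)] at h4
    · rintro ⟨h2, h3⟩
      have h4 : ∀ v, Pool.Agent.K6.H19.GI.Lat v → v ≠ 0 →
          coef x ≤ (Pool.Agent.K6.H19.GI.frm (Pool.Agent.K6.H19.GK.up x) v v).re := by
        intro v hv hv0
        rw [hre, ← one_mul (coef x)]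
        exact h3 v hv hv0
      refine ⟨Pool.Agent.K6.H19.GI.frm_psd (Pool.Agent.K6.H19.GK.up x) fun v hv => ?_, h2, h4⟩
      by_cases hv0 : v = 0
      · rw [hre, hv0]
        have h5 : form x (0 : Fin 3 → ℂ) 0 = 0 :=
          Pool.Agent.W594.SYZ2.TQ.h_zero_left hherm 0
        rw [h5, Complex.zero_re]
      · exact h2.trans (h4 v hv hv0)
  rw [key]
  refine and_congr_right fun h0 => ?_
  refine cone_cond (Λ := gauLat 3) isEuc_gau (fun z hz => hz.conj) one_pos (ω := Pool.Agent.K6.H19.GI.om)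
    .omega (by rw [Pool.Agent.K6.H19.GI.om_im]; norm_num) (fun z hz hzi => ?_)
    (fun a ha v hv i => ha.mul (hv i)) (fun C => ?_) hherm h0
  · obtain ⟨n, hn⟩ := Pool.Agent.K6.H19.GI.kap_im hz
    rw [Pool.Agent.K6.H19.GI.kap_eq, one_mul] at hn
    rw [hn] at hzi ⊢
    have h1 : n ≠ 0 := by
      rintro rfl
      simp at hzi
    have h2 : (1 : ℝ) ≤ |(n : ℝ)| := by
      have := Int.one_le_abs h1
      exact_mod_cast this
    rwa [div_one]
  · refine (Pool.Agent.K6.H19.GI.finite_lat (ι := Fin 3) (C ^ 2)).subset ?_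
    rintro v ⟨hv, hvC⟩
    exact ⟨hv, pow_le_pow_left₀ (norm_nonneg _) hvC 2⟩

/-- The standard Eisenstein case. -/
theorem std_eis {n : ℕ} (hn : 2 ≤ n ∧ n ≤ 4) (G : Subgroup ((Fin n → ℂ) ≃ₗ[ℂ] (Fin n → ℂ)))
    [Finite G] (hG : Pres (eisLat n) G) : Concl (eisLat n) (semi (eisLat n) G hG) := by
  have hne : Nonempty (Fin n) := ⟨⟨0, by omega⟩⟩
  have hft : Fintype G := Fintype.ofFinite G
  refine ⟨fun x => ?_, fun 𝒢 h𝒢 => Pool.Agent.T6.H34.EK.core hn.1 hn.2 𝒢 h𝒢.int h𝒢.nef_eff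
    fun g u hg => h𝒢.lin u g hg.norm hg.pb⟩
  have hk := Pool.Agent.R895.kap_pos
  have hre : ∀ v : Fin n → ℂ, (Pool.Agent.R895.frm (Pool.Agent.T6.H34.EK.up x) v v).re =
      (form x v v).re / Pool.Agent.R895.kap := fun v => Pool.Agent.R895.re_kap_div _
  have hherm : IsHermitian (form x) := Pool.Agent.R895.form_herm (Pool.Agent.T6.H34.EK.up x)
  have key : x ∈ nefCone (semi (eisLat n) G hG) ↔
      0 ≤ coef x ∧ ∀ v ∈ eisLat n, v ≠ 0 → Pool.Agent.R895.kap * coef x ≤ (form x v v).re := by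
    rw [Pool.Agent.T6.H34.EK.nefCone_eq hn.2]
    constructor
    · rintro ⟨-, h2, h3⟩
      refine ⟨h2, fun v hv hv0 => ?_⟩
      have h4 := h3 v hv hv0
      rw [hre, Pool.Agent.T6.H34.EK.coef_up, le_div_iff₀ hk] at h4
      rwa [mul_comm]
    · rintro ⟨h2, h3⟩
      have h4 : ∀ v, Pool.Agent.R895.Lat v → v ≠ 0 →
          coef x ≤ (Pool.Agent.R895.frm (Pool.Agent.T6.H34.EK.up x) v v).re := by
        intro v hv hv0
        rw [hre, le_div_iff₀ hk, mul_comm]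
        exact h3 v hv hv0
      refine ⟨Pool.Agent.R895.frm_psd (Pool.Agent.T6.H34.EK.up x) fun v hv => ?_, h2, h4⟩
      by_cases hv0 : v = 0
      · rw [hre, hv0]
        have h5 : form x (0 : Fin n → ℂ) 0 = 0 :=
          Pool.Agent.W594.SYZ2.TQ.h_zero_left hherm 0
        rw [h5, Complex.zero_re, zero_div]
      · exact h2.trans (h4 v hv hv0)
  rw [key]
  refine and_congr_right fun h0 => ?_
  have hki : 1 / Pool.Agent.R895.kap = √3 / 2 := by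
    rw [Pool.Agent.R895.kap, one_div_div]
  refine cone_cond (Λ := eisLat n) isEuc_eis (fun z hz => hz.conj) hk (ω := Pool.Agent.R895.om)
    .omega ?_ (fun z hz hzi => ?_)
    (fun a ha v hv i => ha.mul (hv i)) (fun C => ?_) hherm h0
  · rw [hki, Pool.Agent.R895.om]
    exact abs_of_pos (div_pos Pool.Agent.R895.sqrt3_pos two_pos)
  · obtain ⟨m, hm⟩ := Pool.Agent.R895.kap_im hz
    have h1 : m ≠ 0 := by
      rintro rfl
      rw [Int.cast_zero] at hm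
      rcases mul_eq_zero.1 hm with h | h
      · exact hk.ne' h
      · exact hzi h
    have h2 : (1 : ℝ) ≤ |(m : ℝ)| := by
      have := Int.one_le_abs h1
      exact_mod_cast this
    rw [← hm, abs_mul, abs_of_pos hk] at h2
    rwa [div_le_iff₀ hk, mul_comm]
  · refine (Pool.Agent.R895.finite_lat (ι := Fin n) (C ^ 2)).subset ?_
    rintro v ⟨hv, hvC⟩
    exact ⟨hv, pow_le_pow_left₀ (norm_nonneg _) hvC 2⟩

end std

section final

open Pool.Agent.K6.H19.GK (gauLat)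
open Pool.Agent.T6.H34.EK (eisLat)

variable {n : ℕ} {Λ : AddSubgroup (Fin n → ℂ)} {G : Subgroup ((Fin n → ℂ) ≃ₗ[ℂ] (Fin n → ℂ))}

/-- `G` contains the multiplication with the complex number `ζ`. -/
def HasScalar (G : Subgroup ((Fin n → ℂ) ≃ₗ[ℂ] (Fin n → ℂ))) (ζ : ℂ) : Prop :=
  ∃ g ∈ G, ∀ v, g v = ζ • v

theorem lattice_case (hn : 0 < n) (hΛ : IsLatt Λ) [Finite G] (hG : Pres Λ G) {ζ : ℂ}
    (hζ : HasScalar G ζ) (hζ2 : ζ ^ 2 ≠ 1) :
    (∀ a, Pool.Agent.K6.H19.GI.IsGau a → ∀ v ∈ Λ, a • v ∈ Λ) ∨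
      ∀ a, Pool.Agent.R895.IsEis a → ∀ v ∈ Λ, a • v ∈ Λ := by
  obtain ⟨g, hg, hgζ⟩ := hζ
  obtain ⟨N, hN, hgN⟩ : ∃ N : ℕ, N ≠ 0 ∧ g ^ N = 1 := by
    refine ⟨Nat.card G, Nat.card_pos.ne', ?_⟩
    have h1 := pow_card_eq_one' (x := (⟨g, hg⟩ : G))
    exact Subtype.ext_iff.1 h1
  have hpow : ∀ k : ℕ, ∀ v, (g ^ k) v = ζ ^ k • v := by
    intro k
    induction k with
    | zero => intro v; rw [pow_zero, pow_zero, one_smul]; rfl
    | succ k ih =>
      intro v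
      rw [pow_succ, pow_succ]
      change (g ^ k) (g v) = _
      rw [hgζ, ih, smul_smul]
  have hne : ∃ v ∈ Λ, v ≠ 0 := by
    by_contra hcon
    push Not at hcon
    have h1 : (Λ : Set (Fin n → ℂ)) ⊆ {0} := fun v hv => hcon v hv
    have h2 : Submodule.span ℂ (Λ : Set (Fin n → ℂ)) ≤ ⊥ := by
      rw [Submodule.span_le]
      intro v hv
      exact h1 hv
    rw [hΛ.span] at h2
    have h3 : (Pi.single ⟨0, hn⟩ 1 : Fin n → ℂ) = 0 := h2 (Submodule.mem_top)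
    have h4 := congrFun h3 ⟨0, hn⟩
    simp at h4
  obtain ⟨w, hw, hw0⟩ := hne
  have hζN : ζ ^ N = 1 := by
    have h1 := hpow N w
    rw [hgN] at h1
    have h2 : w = ζ ^ N • w := h1
    have h3 : (ζ ^ N - 1) • w = 0 := by
      rw [sub_smul, one_smul, ← h2, sub_self]
    exact sub_eq_zero.1 ((smul_eq_zero.1 h3).resolve_right hw0)
  have hζ0 : ζ ≠ 0 := by
    rintro rfl
    rw [zero_pow hN] at hζN
    exact zero_ne_one hζN
  have h1 : ∀ v ∈ Λ, ζ • v ∈ Λ := fun v hv => by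
    rw [← hgζ]
    exact hG g hg v hv
  have h2 : ∀ v ∈ Λ, ζ⁻¹ • v ∈ Λ := fun v hv => by
    have h3 := hG g⁻¹ (G.inv_mem hg) v hv
    have h4 : g⁻¹ v = ζ⁻¹ • v := by
      apply g.injective
      have h5 : g (g⁻¹ v) = v := g.apply_symm_apply v
      rw [h5, map_smul, hgζ, smul_smul, inv_mul_cancel₀ hζ0, one_smul]
    rwa [h4] at h3
  have hint : ∀ ω : ℂ, (∀ v ∈ Λ, ω • v ∈ Λ) → ∀ (a b : ℤ), ∀ v ∈ Λ,
      ((a : ℂ) + b * ω) • v ∈ Λ := by
    intro ω hω a b v hv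
    rw [add_smul, ← smul_smul, Int.cast_smul_eq_zsmul, Int.cast_smul_eq_zsmul]
    exact Λ.add_mem (Λ.zsmul_mem hv a) (Λ.zsmul_mem (hω v hv) b)
  have heis : (∀ v ∈ Λ, Pool.Agent.R895.om • v ∈ Λ) →
      ∀ a, Pool.Agent.R895.IsEis a → ∀ v ∈ Λ, a • v ∈ Λ := by
    rintro hω _ ⟨a, b, rfl⟩ v hv
    exact hint _ hω a b v hv
  have key : ∀ ξ : ℂ, (∀ v ∈ Λ, ξ • v ∈ Λ) → ξ * ξ = -ξ - 1 →
      ∀ v ∈ Λ, Pool.Agent.R895.om • v ∈ Λ := by
    intro ξ hξ hξ2 v hv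
    have ho := Pool.Agent.R895.om_sq
    have h3 : (ξ - Pool.Agent.R895.om) * (ξ + 1 + Pool.Agent.R895.om) = 0 := by
      linear_combination hξ2 - ho
    rcases mul_eq_zero.1 h3 with h4 | h4
    · rw [← sub_eq_zero.1 h4]
      exact hξ v hv
    · have h5 : Pool.Agent.R895.om = -1 + -ξ := by linear_combination h4
      rw [h5, add_smul, neg_smul, neg_smul, one_smul]
      exact Λ.add_mem (Λ.neg_mem hv) (Λ.neg_mem (hξ v hv))
  rcases quad_of_root hΛ.fin ⟨w, hw, hw0⟩ hN hζN hζ2 h1 h2 with h3 | h3 | h3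
  · left
    rintro _ ⟨a, b, rfl⟩ v hv
    refine hint _ ?_ a b v hv
    intro v hv
    have ho := Pool.Agent.K6.H19.GI.om_sq
    have h4 : (ζ - Pool.Agent.K6.H19.GI.om) * (ζ + Pool.Agent.K6.H19.GI.om) = 0 := by
      linear_combination h3 - ho
    rcases mul_eq_zero.1 h4 with h5 | h5
    · rw [← sub_eq_zero.1 h5]
      exact h1 v hv
    · have h6 : Pool.Agent.K6.H19.GI.om = -ζ := by linear_combination h5
      rw [h6, neg_smul]
      exact Λ.neg_mem (h1 v hv)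
  · right
    refine heis (key (-ζ) (fun v hv => ?_) ?_)
    · rw [neg_smul]
      exact Λ.neg_mem (h1 v hv)
    · linear_combination h3
  · right
    exact heis (key ζ h1 h3)

/-- The case of Eisenstein lattices. -/
theorem concl_eis (hn : 2 ≤ n ∧ n ≤ 4) (hΛ : IsLatt Λ) [Finite G] (hG : Pres Λ G)
    (h : ∀ a, Pool.Agent.R895.IsEis a → ∀ v ∈ Λ, a • v ∈ Λ) : Concl Λ (semi Λ G hG) := by
  obtain ⟨e, he⟩ := exists_lequiv isEuc_eis n (Fin n → ℂ) Λ (Module.finrank_fin_fun ℂ)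
    ⟨h, hΛ.fin, hΛ.span⟩
  set φ := e.toContinuousLinearEquiv with hφ
  have hφΛ : ∀ v, v ∈ eisLat n ↔ φ v ∈ Λ := fun v => (he v).symm
  have hfin := finite_comap φ (G' := G)
  exact Concl.map φ hφΛ hG (pres_comap φ hφΛ hG) (std_eis hn _ _)

/-- The case of Gaussian lattices. -/
theorem concl_gau {Λ : AddSubgroup (Fin 3 → ℂ)} {G : Subgroup ((Fin 3 → ℂ) ≃ₗ[ℂ] (Fin 3 → ℂ))}
    (hΛ : IsLatt Λ) [Finite G] (hG : Pres Λ G)
    (h : ∀ a, Pool.Agent.K6.H19.GI.IsGau a → ∀ v ∈ Λ, a • v ∈ Λ) : Concl Λ (semi Λ G hG) := by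
  obtain ⟨e, he⟩ := exists_lequiv isEuc_gau 3 (Fin 3 → ℂ) Λ (Module.finrank_fin_fun ℂ)
    ⟨h, hΛ.fin, hΛ.span⟩
  set φ := e.toContinuousLinearEquiv with hφ
  have hφΛ : ∀ v, v ∈ gauLat 3 ↔ φ v ∈ Λ := fun v => (he v).symm
  have hfin := finite_comap φ (G' := G)
  exact Concl.map φ hφΛ hG (pres_comap φ hφΛ hG) (std_gau _ _)

/-- **All threefolds.** -/
theorem concl_three {Λ : AddSubgroup (Fin 3 → ℂ)}
    {G : Subgroup ((Fin 3 → ℂ) ≃ₗ[ℂ] (Fin 3 → ℂ))} (hΛ : IsLatt Λ) [Finite G] (hG : Pres Λ G)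
    {ζ : ℂ} (hζ : HasScalar G ζ) (hζ2 : ζ ^ 2 ≠ 1) : Concl Λ (semi Λ G hG) := by
  rcases lattice_case (by norm_num) hΛ hG hζ hζ2 with h | h
  · exact concl_gau hΛ hG h
  · exact concl_eis (by norm_num) hΛ hG h

end final

end Pool.Agent.K6.H19.TR
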