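import Pool.Agent.K6.H19.TR.Tr

/-!
# Transport of the cone conjecture along linear isomorphisms: fundamental domains
-/

set_option autoImplicit false

namespace Pool.Agent.K6.H19.TR

open Filter Topology Asymptotics
open Pool.Agent.R895 (BlBundle act Normalizes)
open Pool.Agent.T6.H34.EK (Pres semi IsSemi QBundle IsCls NSs NS form coef integral semiample effective
  span nefCone effCone IsPullback nefEff IsAutGroup HasDomain)
open Pool.Agent.Y167 (AffGrp cone)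
open Pool.Agent.Y167.CC (LinGrp Preserves IsFundDomain)

variable {V W : Type*} [NormedAddCommGroup V] [NormedSpace ℂ V]
  [NormedAddCommGroup W] [NormedSpace ℂ W] {φ : V ≃L[ℂ] W} {Γ : AffGrp V} {Γ' : AffGrp W}

/-- The isomorphism of the groups of linear automorphisms. -/
noncomputable def cj (h : Cj φ Γ Γ') : (NS Γ ≃ₗ[ℝ] NS Γ) →* (NS Γ' ≃ₗ[ℝ] NS Γ') where
  toFun g := (Ps h).symm.trans (g.trans (Ps h))
  map_one' := by
    ext x
    exact (Ps h).apply_symm_apply x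
  map_mul' g g' := by
    ext x
    change Ps h (g (g' ((Ps h).symm x))) = Ps h (g ((Ps h).symm (Ps h (g' ((Ps h).symm x)))))
    rw [(Ps h).symm_apply_apply]

theorem cj_apply (h : Cj φ Γ Γ') (g : NS Γ ≃ₗ[ℝ] NS Γ) (x : NS Γ') :
    cj h g x = Ps h (g ((Ps h).symm x)) := rfl

theorem cj_Ps (h : Cj φ Γ Γ') (g : NS Γ ≃ₗ[ℝ] NS Γ) (x : NS Γ) :
    cj h g (Ps h x) = Ps h (g x) := by
  rw [cj_apply, (Ps h).symm_apply_apply]

theorem cj_cj (h : Cj φ Γ Γ') (g : NS Γ' ≃ₗ[ℝ] NS Γ') : cj h (cj h.symm g) = g := by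
  ext x
  change Ps h (Ps h.symm (g (Ps h (Ps h.symm x)))) = g x
  have h1 : ∀ y : NS Γ', Ps h (Ps h.symm y) = y := fun y => (Ps h).apply_symm_apply y
  rw [h1, h1]

theorem mem_of_Ps (h : Cj φ Γ Γ') {A : Set (NS Γ)} {A' : Set (NS Γ')}
    (hA : ∀ x ∈ A', Ps h.symm x ∈ A) {x : NS Γ} (hx : Ps h x ∈ A') : x ∈ A := by
  have h1 := hA _ hx
  have h2 : Ps h.symm (Ps h x) = x := (Ps h).symm_apply_apply x
  rwa [h2] at h1

/-- The corresponding group of linear automorphisms. -/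
noncomputable def pg (h : Cj φ Γ Γ') (𝒢 : LinGrp (NS Γ')) : LinGrp (NS Γ) := 𝒢.comap (cj h)

theorem pg_aut (h : Cj φ Γ Γ') {𝒢 : LinGrp (NS Γ')} (h𝒢 : IsAutGroup 𝒢) :
    IsAutGroup (pg h 𝒢) where
  int g hg x hx := by
    have h1 := h𝒢.int _ hg _ (Ps_integral h hx)
    rw [cj_Ps] at h1
    exact mem_of_Ps h (fun _ => Ps_integral h.symm) h1
  nef_eff g hg x hx := by
    have h1 := h𝒢.nef_eff _ hg _ (Ps_nefEff h hx)
    rw [cj_Ps] at h1
    exact mem_of_Ps h (fun _ => Ps_nefEff h.symm) h1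
  lin f g hf hg := by
    refine h𝒢.lin (φ.toLinearEquiv.symm.trans (f.trans φ.toLinearEquiv)) _ (fun γ => ?_) ⟨?_, ?_⟩
    · have h1 : ∀ (γ : W ≃ᵃ[ℂ] W), cjA φ.symm
          ((φ.toLinearEquiv.symm.trans (f.trans φ.toLinearEquiv)).toAffineEquiv * γ *
            (φ.toLinearEquiv.symm.trans (f.trans φ.toLinearEquiv)).toAffineEquiv⁻¹) =
          f.toAffineEquiv * cjA φ.symm γ * f.toAffineEquiv⁻¹ := by
        intro γ
        ext v
        change φ.symm (φ (f (φ.symm (γ (φ (f.symm (φ.symm (φ v)))))))) =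
          f (φ.symm (γ (φ (f.symm v))))
        rw [φ.symm_apply_apply, φ.symm_apply_apply]
      rw [h.symm γ, hf, ← h1, ← h.symm]
    · intro x u w
      change form (g ((Ps h).symm x)) (φ.symm u) (φ.symm w) = _
      rw [hg.1]
      change form x (φ (f (φ.symm u))) (φ (f (φ.symm w))) = _
      rfl
    · intro x
      change coef (g ((Ps h).symm x)) = _
      rw [hg.2]
      rfl

/-- **Transport of fundamental domains.** -/
theorem transport (h : Cj φ Γ Γ')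
    (H : ∀ 𝒢 : LinGrp (NS Γ), IsAutGroup 𝒢 → HasDomain 𝒢) (𝒢 : LinGrp (NS Γ'))
    (h𝒢 : IsAutGroup 𝒢) : HasDomain 𝒢 := by
  classical
  obtain ⟨S, hS1, hS2, hS3, hS4⟩ := H (pg h 𝒢) (pg_aut h h𝒢)
  have hP : ∀ y : NS Γ', Ps h (Ps h.symm y) = y := fun y => (Ps h).apply_symm_apply y
  have hP' : ∀ y : NS Γ, Ps h.symm (Ps h y) = y := fun y => (Ps h).symm_apply_apply y
  have hcone : ∀ x : NS Γ', x ∈ cone (S.image (Ps h)) ↔ Ps h.symm x ∈ cone S := by
    intro x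
    constructor
    · intro hx
      have h1 := Ps_cone h.symm hx
      rw [Finset.image_image] at h1
      have h2 : (Ps h.symm) ∘ (Ps h) = id := funext hP'
      rwa [h2, Finset.image_id] at h1
    · intro hx
      have h1 := Ps_cone h hx
      rwa [hP] at h1
  refine ⟨S.image (Ps h), ?_, ?_, ?_, ?_⟩
  · intro y hy
    rw [Finset.coe_image] at hy
    obtain ⟨z, hz, rfl⟩ := hy
    exact Ps_integral h (hS1 hz)
  · intro x hx
    have h1 := Ps_nefEff h (hS2 ((hcone x).1 hx))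
    rwa [hP] at h1
  · ext x
    rw [Set.mem_iUnion₂]
    constructor
    · intro hx
      have h1 := Ps_nefEff h.symm hx
      rw [hS3, Set.mem_iUnion₂] at h1
      obtain ⟨g, hg, y, hy, hyx⟩ := h1
      refine ⟨cj h g, hg, Ps h y, (hcone _).2 (by rwa [hP']), ?_⟩
      rw [cj_Ps, hyx, hP]
    · rintro ⟨g, hg, y, hy, rfl⟩
      have hg' : cj h.symm g ∈ pg h 𝒢 := by
        change cj h (cj h.symm g) ∈ 𝒢
        rwa [cj_cj]
      have h1 : cj h.symm g (Ps h.symm y) ∈ nefEff Γ := by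
        rw [hS3, Set.mem_iUnion₂]
        exact ⟨_, hg', _, (hcone y).1 hy, rfl⟩
      have h2 := Ps_nefEff h h1
      rwa [← cj_Ps h, cj_cj, hP] at h2
  · intro g hg hg1
    have hg' : cj h.symm g ∈ pg h 𝒢 := by
      change cj h (cj h.symm g) ∈ 𝒢
      rwa [cj_cj]
    have hg1' : cj h.symm g ≠ 1 := by
      intro h0
      apply hg1
      rw [← cj_cj h g, h0, map_one]
    have h1 := hS4 _ hg' hg1'
    rw [Set.eq_empty_iff_forall_notMem] at h1 ⊢
    rintro x ⟨hx1, y, hy, rfl⟩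
    refine h1 (Ps h.symm (g y)) ⟨?_, Ps h.symm y, (hcone y).1 hy, cj_Ps h.symm g y⟩
    rw [mem_interior_iff_mem_nhds] at hx1 ⊢
    have h2 : Tendsto (Ps h) (𝓝 (Ps h.symm (g y))) (𝓝 (g y)) := by
      have := (Ps_continuous h).tendsto (Ps h.symm (g y))
      rwa [hP] at this
    filter_upwards [h2 hx1] with z hz
    have h3 := (hcone _).1 hz
    rwa [hP'] at h3

/-- The linear automorphism `φ g φ⁻¹`. -/
noncomputable def cjL (φ : V ≃L[ℂ] W) : (V ≃ₗ[ℂ] V) →* (W ≃ₗ[ℂ] W) where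
  toFun g := φ.toLinearEquiv.symm.trans (g.trans φ.toLinearEquiv)
  map_one' := by
    ext x
    exact φ.apply_symm_apply x
  map_mul' g g' := by
    ext x
    change φ (g (g' (φ.symm x))) = φ (g (φ.symm (φ (g' (φ.symm x)))))
    rw [φ.symm_apply_apply]

theorem cjL_apply (φ : V ≃L[ℂ] W) (g : V ≃ₗ[ℂ] V) (w : W) : cjL φ g w = φ (g (φ.symm w)) := rfl

theorem cjL_inj (φ : V ≃L[ℂ] W) : Function.Injective (cjL φ) := by
  intro g g' h
  ext v
  have h1 := LinearEquiv.congr_fun h (φ v)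
  rw [cjL_apply, cjL_apply, φ.symm_apply_apply] at h1
  exact φ.injective h1

theorem cjL_symm (φ : V ≃L[ℂ] W) (g : W ≃ₗ[ℂ] W) : cjL φ (cjL φ.symm g) = g := by
  ext w
  change φ (φ.symm (g (φ (φ.symm w)))) = g w
  rw [φ.apply_symm_apply, φ.apply_symm_apply]

theorem cj_semi (φ : V ≃L[ℂ] W) {Λ : AddSubgroup V} {Λ' : AddSubgroup W}
    (hΛ : ∀ v, v ∈ Λ ↔ φ v ∈ Λ') {G' : Subgroup (W ≃ₗ[ℂ] W)} (hG' : Pres Λ' G')
    (hG : Pres Λ (G'.comap (cjL φ))) : Cj φ (semi Λ (G'.comap (cjL φ)) hG) (semi Λ' G' hG') := by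
  intro f
  constructor
  · rintro ⟨g, hg, l, hl, h⟩
    refine ⟨cjL φ g, hg, φ l, (hΛ l).1 hl, fun w => ?_⟩
    rw [cjA_apply, h, map_add]
    rfl
  · rintro ⟨g, hg, l, hl, h⟩
    refine ⟨cjL φ.symm g, ?_, φ.symm l, (hΛ _).2 (by rwa [φ.apply_symm_apply]), fun v => ?_⟩
    · change cjL φ (cjL φ.symm g) ∈ G'
      rwa [cjL_symm]
    · have h1 := h (φ v)
      rw [cjA_apply, φ.symm_apply_apply] at h1
      rw [← φ.symm_apply_apply (f v), h1, map_add]
      rfl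

theorem pres_comap (φ : V ≃L[ℂ] W) {Λ : AddSubgroup V} {Λ' : AddSubgroup W}
    (hΛ : ∀ v, v ∈ Λ ↔ φ v ∈ Λ') {G' : Subgroup (W ≃ₗ[ℂ] W)} (hG' : Pres Λ' G') :
    Pres Λ (G'.comap (cjL φ)) := by
  intro g hg v hv
  have h1 := hG' _ hg _ ((hΛ v).1 hv)
  rw [cjL_apply, φ.symm_apply_apply] at h1
  exact (hΛ _).2 h1

theorem finite_comap (φ : V ≃L[ℂ] W) {G' : Subgroup (W ≃ₗ[ℂ] W)} [Finite G'] :
    Finite (G'.comap (cjL φ)) := by
  refine Finite.of_injective (fun g : G'.comap (cjL φ) => (⟨cjL φ g, g.2⟩ : G')) ?_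
  intro g g' h
  exact Subtype.ext (cjL_inj φ (Subtype.ext_iff.1 h))

end Pool.Agent.K6.H19.TR
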