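import Pool.Agent.T6.H34.EK.Defs

/-!
# Transport of the cone conjecture along linear isomorphisms
-/

set_option autoImplicit false

namespace Pool.Agent.K6.H19.TR

open Filter Topology Asymptotics
open Pool.Agent.W594.SYZ2 (IsHermitian)
open Pool.Agent.R895 (BlBundle act Normalizes)
open Pool.Agent.T6.H34.EK (Pres semi IsSemi QBundle IsCls NSs NS form coef integral semiample effective
  span nefCone effCone IsPullback nefEff IsAutGroup HasDomain)
open Pool.Agent.Y167 (AffGrp cone)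
open Pool.Agent.Y167.CC (LinGrp Preserves IsFundDomain)

variable {V W : Type*} [NormedAddCommGroup V] [NormedSpace ℂ V]
  [NormedAddCommGroup W] [NormedSpace ℂ W]

/-- The affine transformation `φ f φ⁻¹`. -/
def cjA (φ : V ≃L[ℂ] W) (f : V ≃ᵃ[ℂ] V) : W ≃ᵃ[ℂ] W :=
  φ.toLinearEquiv.toAffineEquiv.symm.trans (f.trans φ.toLinearEquiv.toAffineEquiv)

theorem cjA_apply (φ : V ≃L[ℂ] W) (f : V ≃ᵃ[ℂ] V) (w : W) : cjA φ f w = φ (f (φ.symm w)) := rfl

theorem cjA_symm (φ : V ≃L[ℂ] W) (f : W ≃ᵃ[ℂ] W) : cjA φ (cjA φ.symm f) = f := by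
  ext w
  simp [cjA_apply]

theorem cjA_mul (φ : V ≃L[ℂ] W) (f g : V ≃ᵃ[ℂ] V) : cjA φ (f * g) = cjA φ f * cjA φ g := by
  ext w
  change φ (f (g (φ.symm w))) = φ (f (φ.symm (φ (g (φ.symm w)))))
  rw [φ.symm_apply_apply]

/-- The groups `Γ` and `Γ'` correspond to each other under `φ`. -/
def Cj (φ : V ≃L[ℂ] W) (Γ : AffGrp V) (Γ' : AffGrp W) : Prop := ∀ f, f ∈ Γ ↔ cjA φ f ∈ Γ'

variable {φ : V ≃L[ℂ] W} {Γ : AffGrp V} {Γ' : AffGrp W}

theorem Cj.symm (h : Cj φ Γ Γ') : Cj φ.symm Γ' Γ := by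
  intro f
  rw [h (cjA φ.symm f), cjA_symm]

/-- The element of `Γ` corresponding to `γ`. -/
def bk (h : Cj φ Γ Γ') (γ : Γ') : Γ := ⟨cjA φ.symm γ, (h.symm _).1 γ.2⟩

theorem act_bk (h : Cj φ Γ Γ') (γ : Γ') (w : W) : act (bk h γ) (φ.symm w) = φ.symm (act γ w) := by
  change φ.symm ((γ : W ≃ᵃ[ℂ] W) (φ (φ.symm w))) = _
  rw [φ.apply_symm_apply]
  rfl

theorem act_bk' (h : Cj φ Γ Γ') (γ : Γ') (v : V) : act (bk h γ) v = φ.symm (act γ (φ v)) := rfl

theorem bk_mul (h : Cj φ Γ Γ') (γ δ : Γ') : bk h (γ * δ) = bk h γ * bk h δ :=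
  Subtype.ext (cjA_mul _ _ _)

theorem bk_bk (h : Cj φ Γ Γ') (γ : Γ) : bk h (bk h.symm γ) = γ :=
  Subtype.ext (cjA_symm φ.symm _)

/-- The line bundle corresponding to `L`. -/
noncomputable def tr (h : Cj φ Γ Γ') (L : QBundle Γ) : QBundle Γ' where
  e γ w := L.e (bk h γ) (φ.symm w)
  k := L.k
  holo γ := (L.holo _).comp φ.symm.differentiable
  ne_zero γ w := L.ne_zero _ _
  mul γ δ w := by
    rw [bk_mul, L.mul, act_bk]
  stab γ w h1 h2 := by
    refine L.stab _ _ (by rw [act_bk, h1]) fun δ hδ => h2 (bk h.symm δ) ?_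
    rw [act_bk' h.symm]
    change φ (act δ (φ.symm 0)) = w
    rw [map_zero, hδ, φ.apply_symm_apply]
  exc γ ζ h1 := by
    rw [map_zero]
    refine L.exc _ ζ fun v => ?_
    rw [act_bk', h1, map_smul, φ.symm_apply_apply]
  eig γ u ζ hu h1 := by
    rw [map_zero]
    refine L.eig _ (φ.symm u) ζ ?_ fun t => ?_
    · intro h0
      apply hu
      rw [← φ.apply_symm_apply u, h0, map_zero]
    · rw [← map_smul, act_bk, h1, map_smul]

theorem tr_pow_section (h : Cj φ Γ Γ') {L : QBundle Γ} {N : ℕ} {s : V → ℂ}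
    (hs : (L.pow N).IsSection s) : ((tr h L).pow N).IsSection fun w => s (φ.symm w) where
  holo := hs.holo.comp φ.symm.differentiable
  eq γ w := by
    rw [← act_bk h, hs.eq]
    rfl
  ord := by
    have h1 : Tendsto (fun w : W => φ.symm w) (𝓝 0) (𝓝 0) := by
      simpa using φ.symm.continuous.tendsto 0
    have h2 := hs.ord.comp_tendsto h1
    refine h2.trans ?_
    have h3 : (fun w : W => φ.symm w) =O[𝓝 0] fun w : W => w :=
      (φ.symm : W →L[ℂ] V).isBigO_id _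
    exact h3.norm_norm.pow _

theorem tr_section (h : Cj φ Γ Γ') {L : QBundle Γ} {s : V → ℂ}
    (hs : L.IsSection s) : (tr h L).IsSection fun w => s (φ.symm w) where
  holo := hs.holo.comp φ.symm.differentiable
  eq γ w := by
    rw [← act_bk h, hs.eq]
    rfl
  ord := by
    have h1 : Tendsto (fun w : W => φ.symm w) (𝓝 0) (𝓝 0) := by
      simpa using φ.symm.continuous.tendsto 0
    have h2 := hs.ord.comp_tendsto h1
    refine h2.trans ?_
    have h3 : (fun w : W => φ.symm w) =O[𝓝 0] fun w : W => w :=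
      (φ.symm : W →L[ℂ] V).isBigO_id _
    exact h3.norm_norm.pow _

theorem tr_semiample (h : Cj φ Γ Γ') {L : QBundle Γ} (hL : L.IsSemiample) :
    (tr h L).IsSemiample where
  out w hw := by
    obtain ⟨N, hN, s, hs, h0⟩ := hL.out (φ.symm w) fun δ hδ => hw (bk h.symm δ) (by
      rw [act_bk' h.symm]
      change φ (act δ (φ.symm 0)) = w
      rw [map_zero, hδ, φ.apply_symm_apply])
    exact ⟨N, hN, _, tr_pow_section h hs, h0⟩
  exc u hu := by
    obtain ⟨N, hN, s, hs, c, hc, h0⟩ := hL.exc (φ.symm u) fun h0 => hu (by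
      rw [← φ.apply_symm_apply u, h0, map_zero])
    refine ⟨N, hN, _, tr_pow_section h hs, c, hc, ?_⟩
    refine h0.congr fun t => ?_
    change s (t • φ.symm u) / t ^ ((L.pow N).k) = s (φ.symm (t • u)) / t ^ ((L.pow N).k)
    rw [map_smul]

/-- The transport of classes. -/
noncomputable def TT (φ : V ≃L[ℂ] W) : ((V → V → ℂ) × ℝ) →ₗ[ℝ] ((W → W → ℂ) × ℝ) where
  toFun x := (fun u w => x.1 (φ.symm u) (φ.symm w), x.2)
  map_add' _ _ := rfl
  map_smul' _ _ := rfl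

theorem TT_TT (φ : V ≃L[ℂ] W) (x : (W → W → ℂ) × ℝ) : TT φ (TT φ.symm x) = x := by
  refine Prod.ext ?_ rfl
  funext u w
  change x.1 (φ (φ.symm u)) (φ (φ.symm w)) = x.1 u w
  rw [φ.apply_symm_apply, φ.apply_symm_apply]

theorem tr_cls (h : Cj φ Γ Γ') {L : QBundle Γ} {x : (V → V → ℂ) × ℝ} (hx : IsCls L x) :
    IsCls (tr h L) (TT φ x) := by
  obtain ⟨⟨h1, F, hF, h2⟩, h3⟩ := hx
  refine ⟨⟨⟨fun u v w => ?_, fun a v w => ?_, fun v w => ?_⟩, fun w => F (φ.symm w),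
    hF.comp φ.symm.differentiable, fun γ w => ?_⟩, h3⟩
  · change x.1 (φ.symm (u + v)) (φ.symm w) = _
    rw [map_add, h1.add_left]
    rfl
  · change x.1 (φ.symm (a • v)) (φ.symm w) = _
    rw [map_smul, h1.smul_left]
    rfl
  · exact h1.symm _ _
  · have h4 := h2 (bk h γ) (φ.symm w)
    rw [act_bk] at h4
    exact h4

theorem TT_mem (h : Cj φ Γ Γ') {x : (V → V → ℂ) × ℝ} (hx : x ∈ NSs Γ) : TT φ x ∈ NSs Γ' := by
  have h1 : NSs Γ ≤ (NSs Γ').comap (TT φ) := by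
    refine Submodule.span_le.2 ?_
    rintro x ⟨L, hL⟩
    exact Submodule.subset_span ⟨tr h L, tr_cls h hL⟩
  exact h1 hx

/-- The isomorphism of the spaces of classes. -/
noncomputable def Ps (h : Cj φ Γ Γ') : NS Γ ≃ₗ[ℝ] NS Γ' where
  toFun x := ⟨TT φ x.1, TT_mem h x.2⟩
  map_add' _ _ := rfl
  map_smul' _ _ := rfl
  invFun x := ⟨TT φ.symm x.1, TT_mem h.symm x.2⟩
  left_inv x := Subtype.ext (TT_TT φ.symm x.1)
  right_inv x := Subtype.ext (TT_TT φ x.1)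

theorem Ps_symm (h : Cj φ Γ Γ') : (Ps h).symm = Ps h.symm := rfl

theorem form_Ps (h : Cj φ Γ Γ') (x : NS Γ) (u w : W) :
    form (Ps h x) u w = form x (φ.symm u) (φ.symm w) := rfl

theorem coef_Ps (h : Cj φ Γ Γ') (x : NS Γ) : coef (Ps h x) = coef x := rfl

theorem Ps_continuous (h : Cj φ Γ Γ') : Continuous (Ps h) := by
  have h1 : Continuous (TT φ) := by
    refine Continuous.prodMk ?_ continuous_snd
    refine continuous_pi fun u => continuous_pi fun w => ?_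
    exact (continuous_apply _).comp ((continuous_apply _).comp continuous_fst)
  exact (h1.comp continuous_subtype_val).subtype_mk _

theorem Ps_integral (h : Cj φ Γ Γ') {x : NS Γ} (hx : x ∈ integral Γ) : Ps h x ∈ integral Γ' := by
  obtain ⟨L, hL⟩ := hx
  exact ⟨tr h L, tr_cls h hL⟩

theorem Ps_semiample (h : Cj φ Γ Γ') {x : NS Γ} (hx : x ∈ semiample Γ) :
    Ps h x ∈ semiample Γ' := by
  obtain ⟨L, hL, h1⟩ := hx
  exact ⟨tr h L, tr_cls h hL, tr_semiample h h1⟩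

theorem Ps_effective (h : Cj φ Γ Γ') {x : NS Γ} (hx : x ∈ effective Γ) :
    Ps h x ∈ effective Γ' := by
  obtain ⟨L, s, hL, hs, v, hv⟩ := hx
  refine ⟨tr h L, _, tr_cls h hL, tr_section h hs, φ v, ?_⟩
  change s (φ.symm (φ v)) ≠ 0
  rwa [φ.symm_apply_apply]

open scoped Classical in
theorem Ps_cone (h : Cj φ Γ Γ') {S : Finset (NS Γ)} {x : NS Γ} (hx : x ∈ cone S) :
    Ps h x ∈ cone (S.image (Ps h)) := by
  refine Pool.Agent.Y167.cone_image ((Ps h : NS Γ ≃ₗ[ℝ] NS Γ') : NS Γ →ₗ[ℝ] NS Γ') hx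

theorem Ps_span (h : Cj φ Γ Γ') {A : Set (NS Γ)} {A' : Set (NS Γ')}
    (hA : ∀ x ∈ A, Ps h x ∈ A') {x : NS Γ} (hx : x ∈ span A) : Ps h x ∈ span A' := by
  classical
  obtain ⟨S, hS, hx⟩ := hx
  refine ⟨S.image (Ps h), ?_, Ps_cone h hx⟩
  intro y hy
  rw [Finset.coe_image] at hy
  obtain ⟨z, hz, rfl⟩ := hy
  exact hA z (hS hz)

theorem Ps_nefEff (h : Cj φ Γ Γ') {x : NS Γ} (hx : x ∈ nefEff Γ) : Ps h x ∈ nefEff Γ' :=
  ⟨map_mem_closure (Ps_continuous h) hx.1 fun _ hy => Ps_span h (fun _ => Ps_semiample h) hy,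
    Ps_span h (fun _ => Ps_effective h) hx.2⟩

theorem Ps_nefCone (h : Cj φ Γ Γ') {x : NS Γ} (hx : x ∈ nefCone Γ) : Ps h x ∈ nefCone Γ' :=
  map_mem_closure (Ps_continuous h) hx fun _ hy => Ps_span h (fun _ => Ps_semiample h) hy

end Pool.Agent.K6.H19.TR
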